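import Pool.Agent.Work.MP_727c87_up.Up2

/-!
# MP_727c87_gt, part (D): good chains exist, bottleneck (helper76)
-/

namespace Pool.W1

open Relation

namespace FS

variable {Y B : Type} (F : FS Y B)

theorem gp_same {z x' x'' : Y} (h : x'' = x' ∨ x'' = F.a x' ∨ x'' = F.b x') (hg : F.GP z x'') :
    F.GP z x' := by
  rcases h with rfl | rfl | rfl
  · exact hg
  · have := F.gp_a hg
    rwa [F.aa] at this
  · have := F.gp_b hg
    rwa [F.b_b] at this

/-- the ends of `w` and of `a w` -/
theorem ends {w w' x : Y} (hw : w' = w ∨ w' = F.a w) (hx : x = w ∨ x = F.r.symm w) :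
    ∃ x'', (x'' = w' ∨ x'' = F.r.symm w') ∧ (x'' = x ∨ x'' = F.a x ∨ x'' = F.b x) := by
  rcases hw with rfl | rfl
  · exact ⟨x, hx, Or.inl rfl⟩
  · rcases hx with rfl | rfl
    · exact ⟨F.a x, Or.inl rfl, Or.inr (Or.inl rfl)⟩
    · refine ⟨F.r.symm (F.a w), Or.inr rfl, Or.inr (Or.inr ?_)⟩
      rw [b, Equiv.apply_symm_apply]

theorem hh_same {x x'' : Y} (h : x'' = x ∨ x'' = F.a x ∨ x'' = F.b x) (γ : Y) :
    F.hh γ x'' = F.hh γ x := by
  rcases h with rfl | rfl | rfl
  · rfl
  · exact F.hh_a γ x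
  · exact F.hh_b γ x

/-- from a corner of a chamber of an arc along the arc -/
theorem follow1 {z z1 w x' : Y} (hz : F.nd z1) {i : Side} (hzz : z = F.fl z1 i)
    (harc : F.Arc z1 w) (hx : x' = w ∨ x' = F.r.symm w) (hs : F.hh z1 x' = F.hh z1 z) :
    F.GP z x' := by
  obtain ⟨z', w', h1, h2, h3⟩ := F.arc_start hz harc
  obtain ⟨x'', hx'', hxx⟩ := F.ends h2 hx
  apply F.gp_same hxx
  have hz' : F.nd z' := by
    rcases h1 with rfl | rfl
    · exact hz
    · exact (F.nd_op z1).2 hz
  have harc' : F.Arc z1 z' := by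
    rcases h1 with rfl | rfl
    · exact F.arc_refl z'
    · exact F.arc_op hz
  have hzi : z = F.fl z' i := by
    rcases h1 with rfl | rfl
    · exact hzz
    · rw [F.fl_op hz]; exact hzz
  rcases reflTransGen_iff_eq_or_transGen.1 h3 with h | h
  · -- the side is in the chamber
    subst h
    have : ∃ j, x'' = F.fl z j := by
      rw [hzi]
      rcases hx'' with rfl | rfl
      · exact ⟨F.sd x'', by rw [F.fl_fl hz', F.fl_sd]⟩
      · exact ⟨_, by rw [F.fl_fl hz']; exact F.rs_eq_fl hz'⟩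
    have hnz : F.nd z := by rw [hzi]; exact (F.nd_fl _ _).2 hz'
    exact GP.step z x'' GP.refl (Or.inr (Or.inr (Or.inr (Or.inr ⟨hnz, this⟩))))
      (fun γ h => absurd rfl h)
  · refine (F.follow hz' ⟨i, hzi⟩ h x'' hx'' ?_).1
    rw [← F.hh_congr harc', F.hh_same hxx, hs]

/-- from an end of a side of an arc along the arc -/
theorem follow2 {z z1 w x' : Y} (hz : z = z1 ∨ z = F.r.symm z1) (harc : F.Arc z1 w)
    (hx : x' = w ∨ x' = F.r.symm w) (hs : F.hh z1 x' = F.hh z1 z) : F.GP z x' := by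
  obtain ⟨z', w', h1, h2, h3⟩ := F.arc_cases harc
  obtain ⟨x'', hx'', hxx⟩ := F.ends h2 hx
  obtain ⟨z'', hz'', hzz⟩ := F.ends h1 hz
  apply F.gp_same hxx
  have hgz : F.GP z z'' := by
    rcases hzz with rfl | rfl | rfl
    · exact GP.refl
    · exact F.gp_a GP.refl
    · exact F.gp_b GP.refl
  have harc' : F.Arc z1 z' := by
    rcases h1 with rfl | rfl
    · exact F.arc_refl z'
    · exact F.arc_a z1
  have hs2 : F.hh z' x'' = F.hh z' z'' := by
    rw [← F.hh_congr harc', F.hh_same hxx, F.hh_same hzz, hs]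
  rcases reflTransGen_iff_eq_or_transGen.1 h3 with h | h
  · subst h
    have : x'' = z'' := by
      have hne := F.ne_ends (F.arc_refl w')
      rcases hx'' with rfl | rfl
      · rcases hz'' with rfl | rfl
        · rfl
        · exact absurd hs2 hne
      · rcases hz'' with rfl | rfl
        · exact absurd hs2.symm hne
        · rfl
    rw [this]
    exact hgz
  · have hnd : F.nd z' := by
      obtain ⟨t, ht, -⟩ := TransGen.head'_iff.1 h
      exact ht.1
    have hzi : ∃ i, z'' = F.fl z' i := by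
      rcases hz'' with rfl | rfl
      · exact ⟨F.sd z'', (F.fl_sd _).symm⟩
      · exact ⟨_, F.rs_eq_fl hnd⟩
    have hg := (F.follow hnd hzi h x'' hx'' hs2).1
    apply F.gp_concat hgz hg
    intro γ hγ
    exact absurd (F.hh_same hzz γ).symm hγ

/-- the place where a good chain crosses an arc -/
theorem cross {y x : Y} (h : F.GP y x) {β : Y} (hβ : F.hh β y ≠ F.hh β x) :
    ∃ z z', F.GP y z ∧ F.Link z z' ∧ F.hh β z ≠ F.hh β z' ∧ F.hh β y = F.hh β z ∧
      ∀ γ, F.hh γ y ≠ F.hh γ z → F.hh γ y ≠ F.hh γ x := by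
  induction h with
  | refl => exact absurd rfl hβ
  | step x x' hx hl hs ih =>
    have mono : ∀ γ, F.hh γ y ≠ F.hh γ x → F.hh γ y ≠ F.hh γ x' := by
      intro γ hγ
      rw [← hs γ hγ]
      exact hγ
    by_cases h0 : F.hh β y = F.hh β x
    · exact ⟨x, x', hx, hl, by rw [← h0]; exact hβ, h0, mono⟩
    · obtain ⟨z, z', h1, h2, h3, h4, h5⟩ := ih h0
      exact ⟨z, z', h1, h2, h3, h4, fun γ hγ => mono γ (h5 γ hγ)⟩

/-- the main step: one more side -/
theorem gp_next {y x x' w : Y} (h : F.GP y x) (hl : F.Link x x')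
    (hx : x' = w ∨ x' = F.r.symm w)
    (honly : ∀ γ, F.hh γ x ≠ F.hh γ x' → F.Arc γ w) (hne : F.hh w x ≠ F.hh w x') :
    F.GP y x' := by
  by_cases h0 : F.hh w y = F.hh w x
  · refine GP.step x x' h hl ?_
    intro γ hγ
    by_contra hc
    have := F.hh_congr (honly γ hc)
    rw [this] at hγ
    exact hγ h0
  · obtain ⟨z, z', h1, h2, h3, h4, h5⟩ := F.cross h h0
    have hside : F.hh w x' = F.hh w z := by
      rw [← h4]
      exact (zmod2_eq h0 hne).symm
    have hd : ∀ γ, F.hh γ y ≠ F.hh γ z → F.hh γ z = F.hh γ x' := by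
      intro γ hγ
      by_contra hc
      have e1 : F.hh γ y = F.hh γ x' := zmod2_eq hγ hc
      have e2 : F.hh γ x ≠ F.hh γ x' := by
        intro e
        exact h5 γ hγ (e1.trans e.symm)
      have := F.hh_congr (honly γ e2)
      rw [this] at hγ
      exact hγ h4
    refine F.gp_concat h1 ?_ hd
    rcases h2 with rfl | rfl | rfl | rfl | ⟨hnd, j, rfl⟩
    · exact absurd (F.hh_a w z).symm h3
    · exact absurd (F.hh_b w z).symm h3
    · -- `z' = r z`
      have hi : F.ind w (F.r z) ≠ 0 := by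
        intro hi
        have := F.hh_r w z
        rw [hi, add_zero] at this
        exact h3 this.symm
      have ha := F.arc_of_ind hi
      refine F.follow2 (z1 := F.r z) (Or.inr (by rw [Equiv.symm_apply_apply])) (F.arc_symm ha) hx ?_
      rw [← F.hh_congr ha, hside]
    · -- `z = r z'`
      have hi : F.ind w (F.r z') ≠ 0 := by
        intro hi
        have := F.hh_r w z'
        rw [hi, add_zero] at this
        exact h3 this
      have ha := F.arc_of_ind hi
      refine F.follow2 (z1 := F.r z') (Or.inl rfl) (F.arc_symm ha) hx ?_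
      rw [← F.hh_congr ha, hside]
    · obtain ⟨k, hk⟩ := F.pass hnd h3
      refine F.follow1 (z1 := F.fl z k) ((F.nd_fl z k).2 hnd) (i := F.sd z) ?_ (F.arc_symm hk) hx ?_
      · rw [F.fl_fl hnd, F.fl_sd]
      · rw [← F.hh_congr hk, hside]

/-- elementary moves -/
def Elem (u v : Y) : Prop := v = F.a u ∨ v = F.r u ∨ u = F.r v

theorem gp_elem {y x x' : Y} (h : F.GP y x) (he : F.Elem x x') : F.GP y x' := by
  rcases he with rfl | rfl | rfl
  · exact F.gp_a h
  · refine F.gp_next (w := F.r x) h (Or.inr (Or.inr (Or.inl rfl))) (Or.inl rfl) ?_ ?_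
    · intro γ hγ
      apply F.arc_of_ind
      intro h0
      have := F.hh_r γ x
      rw [h0, add_zero] at this
      exact hγ this.symm
    · have := F.ne_ends (F.arc_refl (F.r x))
      rw [Equiv.symm_apply_apply] at this
      exact this.symm
  · refine F.gp_next (w := F.r x') h (Or.inr (Or.inr (Or.inr (Or.inl rfl))))
      (Or.inr (by rw [Equiv.symm_apply_apply])) ?_ ?_
    · intro γ hγ
      apply F.arc_of_ind
      intro h0
      have := F.hh_r γ x'
      rw [h0, add_zero] at this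
      exact hγ this
    · have := F.ne_ends (F.arc_refl (F.r x'))
      rw [Equiv.symm_apply_apply] at this
      exact this

theorem gp_all {y x : Y} (h : ReflTransGen F.Elem y x) : F.GP y x := by
  induction h with
  | refl => exact GP.refl
  | tail _ he ih => exact F.gp_elem ih he

/-! ### distances -/

/-- one step -/
def Stp (u v : Y) : Prop := v = F.r u ∨ u = F.r v ∨ F.Arc u v

theorem stp_refl (u : Y) : F.Stp u u := Or.inr (Or.inr (F.arc_refl u))

theorem stp_symm {u v : Y} (h : F.Stp u v) : F.Stp v u := by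
  rcases h with h | h | h
  · exact Or.inr (Or.inl h)
  · exact Or.inl h
  · exact Or.inr (Or.inr (F.arc_symm h))

/-- at most `n` steps -/
def Wi : ℕ → Y → Y → Prop
  | 0, y, z => y = z
  | n + 1, y, z => ∃ u, Wi n y u ∧ F.Stp u z

theorem wi_refl (n : ℕ) (y : Y) : F.Wi n y y := by
  induction n with
  | zero => rfl
  | succ n ih => exact ⟨y, ih, F.stp_refl y⟩

theorem wi_trans {m n : ℕ} {x y z : Y} (h1 : F.Wi m x y) (h2 : F.Wi n y z) : F.Wi (m + n) x z := by
  induction n generalizing z with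
  | zero => cases h2; exact h1
  | succ n ih =>
    obtain ⟨u, hu, hs⟩ := h2
    exact ⟨u, ih hu, hs⟩

theorem wi_mono {m n : ℕ} (h : m ≤ n) {x y : Y} (h1 : F.Wi m x y) : F.Wi n x y := by
  have := F.wi_trans h1 (F.wi_refl (n - m) y)
  rwa [Nat.add_sub_cancel' h] at this

theorem wi_one {x y : Y} (h : F.Stp x y) : F.Wi 1 x y := ⟨x, rfl, h⟩

theorem wi_symm {n : ℕ} {x y : Y} (h : F.Wi n x y) : F.Wi n y x := by
  induction n generalizing y with
  | zero => exact Eq.symm h
  | succ n ih =>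
    obtain ⟨u, hu, hs⟩ := h
    have := F.wi_trans (F.wi_one (F.stp_symm hs)) (ih hu)
    rwa [add_comm] at this

theorem wi_pow (n : ℕ) (x : Y) : F.Wi n x ((F.r ^ n) x) := by
  induction n with
  | zero => exact F.wi_refl 0 x
  | succ n ih =>
    refine ⟨_, ih, Or.inl ?_⟩
    rw [pow_succ', Equiv.Perm.mul_apply]

theorem wi_fl (x : Y) (j : Side) : F.Wi 12 x (F.fl x j) := by
  apply F.wi_mono _ (F.wi_pow (j - F.sd x).val x)
  exact (ZMod.val_lt (j - F.sd x)).le

/-- the four flags of a corner -/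
def Cor (v v' : Y) : Prop := v = v' ∨ v = F.a v' ∨ v = F.b v' ∨ v = F.a (F.b v')

theorem cor_a {v v' : Y} (h : F.Cor v v') : F.Cor (F.a v) v' := by
  rcases h with rfl | rfl | rfl | rfl
  · exact Or.inr (Or.inl rfl)
  · exact Or.inl (F.aa _)
  · exact Or.inr (Or.inr (Or.inr rfl))
  · exact Or.inr (Or.inr (Or.inl (F.aa _)))

theorem cor_b {v v' : Y} (h : F.Cor v v') : F.Cor (F.b v) v' := by
  rcases h with rfl | rfl | rfl | rfl
  · exact Or.inr (Or.inr (Or.inl rfl))
  · exact Or.inr (Or.inr (Or.inr (F.a_b _).symm))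
  · exact Or.inl (F.b_b _)
  · exact Or.inr (Or.inl (by rw [← F.a_b, F.b_b]))

theorem wi_a (x : Y) : F.Wi 1 x (F.a x) := F.wi_one (Or.inr (Or.inr (F.arc_a x)))

theorem wi_b (x : Y) : F.Wi 3 x (F.b x) := by
  have h1 : F.Wi 1 x (F.r x) := F.wi_one (Or.inl rfl)
  have h2 : F.Wi 1 (F.r x) (F.a (F.r x)) := F.wi_a _
  have h3 : F.Wi 1 (F.a (F.r x)) (F.b x) := F.wi_one (Or.inr (Or.inl (by
    rw [b, Equiv.apply_symm_apply])))
  exact F.wi_trans (F.wi_trans h1 h2) h3

theorem wi_cor {v v' : Y} (h : F.Cor v v') : F.Wi 4 v' v := by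
  rcases h with rfl | rfl | rfl | rfl
  · exact F.wi_refl 4 _
  · exact F.wi_mono (by norm_num) (F.wi_a _)
  · exact F.wi_mono (by norm_num) (F.wi_b _)
  · exact F.wi_trans (F.wi_b _) (F.wi_a _)

/-- close to the starting point or to a separating arc, up to a change of the flag of the corner -/
def Strong (y x v : Y) : Prop :=
  ∃ v', F.Cor v v' ∧ (v' = y ∨ ∃ γ, F.hh γ y ≠ F.hh γ x ∧ ∃ u, F.Arc γ u ∧ F.Wi 12 u v')

def Weak (y x v : Y) : Prop := ∃ v0, F.Strong y x v0 ∧ F.Wi 12 v0 v

theorem strong_weak {y x v : Y} (h : F.Strong y x v) : F.Weak y x v := ⟨v, h, F.wi_refl 12 v⟩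

theorem strong_mono {y x x' v : Y} (hm : ∀ γ, F.hh γ y ≠ F.hh γ x → F.hh γ y ≠ F.hh γ x')
    (h : F.Strong y x v) : F.Strong y x' v := by
  obtain ⟨v', h1, h2⟩ := h
  refine ⟨v', h1, ?_⟩
  rcases h2 with h2 | ⟨γ, h3, h4⟩
  · exact Or.inl h2
  · exact Or.inr ⟨γ, hm γ h3, h4⟩

theorem weak_mono {y x x' v : Y} (hm : ∀ γ, F.hh γ y ≠ F.hh γ x → F.hh γ y ≠ F.hh γ x')
    (h : F.Weak y x v) : F.Weak y x' v := by
  obtain ⟨v0, h1, h2⟩ := h
  exact ⟨v0, F.strong_mono hm h1, h2⟩

/-- an arc which separates two corners of a chamber -/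
theorem exists_sep {x : Y} (hx : F.nd x) {j : Side} (hj : F.fl x j ≠ x) :
    ∃ k, F.hh (F.fl x k) x ≠ F.hh (F.fl x k) (F.fl x j) := by
  set i := (j - F.sd x).val with hi
  have hi0 : 0 < i := by
    rcases Nat.eq_zero_or_pos i with h | h
    · exfalso
      apply hj
      rw [fl, flg, ← hi, h]; rfl
    · exact h
  have hi12 : i < 12 := ZMod.val_lt (j - F.sd x)
  obtain ⟨k, hk0, hki, hk⟩ := F.sepc x hx i hi0 hi12
  refine ⟨F.sd x + k, ?_⟩
  set γ := F.fl x (F.sd x + k) with hγ
  -- in the chamber the arc consists of the sides `sd x + k` and its partner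
  have hind : ∀ l : ℕ, 0 < l → l ≤ i → F.ind γ ((F.r ^ l) x) = if l = k then 1 else 0 := by
    intro l hl0 hli
    rw [F.pow_eq_fl hx]
    split_ifs with h
    · subst h
      exact F.ind_of (F.arc_refl _)
    · by_contra hne
      have ha := F.arc_of_ind hne
      have hndγ : F.nd γ := (F.nd_fl x _).2 hx
      have ha' : F.Arc γ (F.fl γ (F.sd x + l)) := by
        rw [hγ, F.fl_fl hx]; exact ha
      rcases F.arc_chamber hndγ ha' with h1 | h1
      · have h2 := congrArg F.sd h1
        rw [F.sd_fl, hγ, F.sd_fl] at h2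
        have h3 : (l : ZMod 12) = (k : ZMod 12) := add_left_cancel h2
        rw [ZMod.natCast_eq_natCast_iff'] at h3
        rw [Nat.mod_eq_of_lt (by omega), Nat.mod_eq_of_lt (by omega)] at h3
        exact h h3
      · have h2 := congrArg F.sd h1
        rw [F.sd_fl, F.sd_op, hγ, F.sd_fl, F.mu_fl] at h2
        exact hk l hl0 hli h2.symm
  have hsum : ∀ l : ℕ, l ≤ i → F.hh γ ((F.r ^ l) x) = F.hh γ x + if k ≤ l then 1 else 0 := by
    intro l
    induction l with
    | zero =>
      intro _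
      rw [if_neg (by omega)]
      simp
    | succ l ih =>
      intro hl
      have e : (F.r ^ (l + 1)) x = F.r ((F.r ^ l) x) := by rw [pow_succ', Equiv.Perm.mul_apply]
      rw [e, F.hh_r, ← e, ih (by omega), hind (l + 1) (by omega) hl]
      by_cases h1 : l + 1 = k
      · rw [if_pos h1, if_neg (by omega), if_pos (by omega)]
        ring
      · by_cases h2 : k ≤ l
        · rw [if_neg h1, if_pos h2, if_pos (by omega)]
          ring
        · rw [if_neg h1, if_neg h2, if_neg (by omega)]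
          ring
  have hfin := hsum i le_rfl
  rw [if_pos hki] at hfin
  have : F.fl x j = (F.r ^ i) x := rfl
  rw [this, hfin]
  intro h
  have h1 : (1 : ZMod 2) = 0 := by
    have := h
    nth_rewrite 1 [← add_zero (F.hh γ x)] at this
    exact (add_left_cancel this).symm
  exact absurd h1 (by decide)

/-- the vertices of the rotation path from `x` to `fl x j` -/
theorem rot_path {P : Y → Prop} (x : Y) (n : ℕ) (hP : ∀ m ≤ n, P ((F.r ^ m) x)) :
    ReflTransGen (fun u v => F.Stp u v ∧ P u ∧ P v) x ((F.r ^ n) x) := by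
  induction n with
  | zero => exact ReflTransGen.refl
  | succ n ih =>
    refine (ih (fun m hm => hP m (by omega))).tail ⟨Or.inl ?_, hP n (by omega), hP (n + 1) le_rfl⟩
    rw [pow_succ', Equiv.Perm.mul_apply]

/-- a good chain gives a path of steps close to the starting point or to separating arcs -/
theorem gp_path {y x : Y} (h : F.GP y x) : F.Strong y x x ∧
    ReflTransGen (fun u v => F.Stp u v ∧ F.Weak y x u ∧ F.Weak y x v) y x := by
  induction h with
  | refl => exact ⟨⟨y, Or.inl rfl, Or.inl rfl⟩, ReflTransGen.refl⟩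
  | step x x' _ hl hs ih =>
    obtain ⟨hx, hp⟩ := ih
    have mono : ∀ γ, F.hh γ y ≠ F.hh γ x → F.hh γ y ≠ F.hh γ x' := by
      intro γ hγ
      rw [← hs γ hγ]
      exact hγ
    have hx1 := F.strong_mono mono hx
    have hp1 : ReflTransGen (fun u v => F.Stp u v ∧ F.Weak y x' u ∧ F.Weak y x' v) y x :=
      by
        refine ReflTransGen.mono (r := fun u v => F.Stp u v ∧ F.Weak y x u ∧ F.Weak y x v)
          (fun u v h => ?_) _ _ hp
        exact ⟨h.1, F.weak_mono mono h.2.1, F.weak_mono mono h.2.2⟩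
    have sep : ∀ γ, F.hh γ x ≠ F.hh γ x' → F.hh γ y ≠ F.hh γ x' := by
      intro γ hγ h
      by_cases h0 : F.hh γ y = F.hh γ x
      · exact hγ (h0.symm.trans h)
      · exact hγ (hs γ h0)
    rcases hl with rfl | rfl | rfl | hr | ⟨hnd, j, rfl⟩
    · have hx2 : F.Strong y (F.a x) (F.a x) := by
        obtain ⟨v', h1, h2⟩ := hx1
        exact ⟨v', F.cor_a h1, h2⟩
      exact ⟨hx2, hp1.tail ⟨Or.inr (Or.inr (F.arc_a x)), F.strong_weak hx1, F.strong_weak hx2⟩⟩
    · have hx2 : F.Strong y (F.b x) (F.b x) := by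
        obtain ⟨v', h1, h2⟩ := hx1
        exact ⟨v', F.cor_b h1, h2⟩
      have w1 : F.Weak y (F.b x) (F.r x) :=
        ⟨x, hx1, F.wi_mono (by norm_num) (F.wi_one (Or.inl rfl))⟩
      have w2 : F.Weak y (F.b x) (F.a (F.r x)) :=
        ⟨x, hx1, F.wi_mono (m := 2) (by norm_num)
          (F.wi_trans (F.wi_one (Or.inl rfl)) (F.wi_a (F.r x)))⟩
      refine ⟨hx2, ((hp1.tail ⟨Or.inl rfl, F.strong_weak hx1, w1⟩).tail
        ⟨Or.inr (Or.inr (F.arc_a (F.r x))), w1, w2⟩).tail
        ⟨Or.inr (Or.inl ?_), w2, F.strong_weak hx2⟩⟩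
      rw [b, Equiv.apply_symm_apply]
    · have hx2 : F.Strong y (F.r x) (F.r x) := by
        refine ⟨F.r x, Or.inl rfl, Or.inr ⟨F.r x, ?_, F.r x, F.arc_refl _, F.wi_refl 12 _⟩⟩
        apply sep
        have := F.ne_ends (F.arc_refl (F.r x))
        rw [Equiv.symm_apply_apply] at this
        exact this.symm
      exact ⟨hx2, hp1.tail ⟨Or.inl rfl, F.strong_weak hx1, F.strong_weak hx2⟩⟩
    · subst hr
      have hx2 : F.Strong y x' x' := by
        refine ⟨x', Or.inl rfl, Or.inr ⟨F.r x', ?_, F.r x', F.arc_refl _, ?_⟩⟩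
        · apply sep
          have := F.ne_ends (F.arc_refl (F.r x'))
          rw [Equiv.symm_apply_apply] at this
          exact this
        · exact F.wi_mono (by norm_num) (F.wi_one (Or.inr (Or.inl rfl)))
      exact ⟨hx2, hp1.tail ⟨Or.inr (Or.inl rfl), F.strong_weak hx1, F.strong_weak hx2⟩⟩
    · have hx2 : F.Strong y (F.fl x j) (F.fl x j) := by
        by_cases h0 : F.fl x j = x
        · rw [h0]; rw [h0] at hx1; exact hx1
        · obtain ⟨k, hk⟩ := F.exists_sep hnd h0
          refine ⟨F.fl x j, Or.inl rfl, Or.inr ⟨F.fl x k, sep _ hk, F.fl x k, F.arc_refl _, ?_⟩⟩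
          have := F.wi_fl (F.fl x k) j
          rwa [F.fl_fl hnd] at this
      refine ⟨hx2, hp1.trans (F.rot_path x _ ?_)⟩
      intro m hm
      refine ⟨x, hx1, F.wi_mono ?_ (F.wi_pow m x)⟩
      exact hm.trans (ZMod.val_lt (j - F.sd x)).le

/-- a chain of elementary moves meets every separating arc -/
theorem chain_meets {y x γ : Y} (c : ℕ → Y) (m : ℕ) (h0 : c 0 = y) (hm : c m = x)
    (hc : ∀ i < m, F.Elem (c i) (c (i + 1))) (hγ : F.hh γ y ≠ F.hh γ x) :
    ∃ i ≤ m, F.Arc γ (c i) := by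
  by_contra hno
  push Not at hno
  have : ∀ i ≤ m, F.hh γ (c i) = F.hh γ y := by
    intro i
    induction i with
    | zero => intro _; rw [h0]
    | succ i ih =>
      intro hi
      rw [← ih (by omega)]
      rcases hc i (by omega) with h | h | h
      · rw [h, F.hh_a]
      · rw [h, F.hh_r, ← h]
        have : F.ind γ (c (i + 1)) = 0 := if_neg (hno _ hi)
        rw [this, add_zero]
      · have h1 := F.hh_r γ (c (i + 1))
        rw [← h] at h1
        have : F.ind γ (c i) = 0 := if_neg (hno _ (by omega))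
        rw [this, add_zero] at h1
        exact h1.symm
  apply hγ
  rw [← this m le_rfl, hm]

/-- points close to the starting point or a separating arc are met by every chain -/
theorem weak_met {y x v : Y} (hv : F.Weak y x v) (c : ℕ → Y) (m : ℕ) (h0 : c 0 = y) (hm : c m = x)
    (hc : ∀ i < m, F.Elem (c i) (c (i + 1))) : ∃ i ≤ m, F.Wi 29 (c i) v := by
  obtain ⟨v0, ⟨v', h1, h2⟩, h3⟩ := hv
  have h4 : F.Wi 16 v' v := F.wi_trans (F.wi_cor h1) h3
  rcases h2 with rfl | ⟨γ, h5, u, h6, h7⟩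
  · exact ⟨0, Nat.zero_le _, by rw [h0]; exact F.wi_mono (by norm_num) h4⟩
  · obtain ⟨i, hi, ha⟩ := F.chain_meets c m h0 hm hc h5
    refine ⟨i, hi, ?_⟩
    have h8 : F.Wi 1 (c i) u := F.wi_one (Or.inr (Or.inr (F.arc_trans (F.arc_symm ha) h6)))
    exact F.wi_trans (F.wi_trans h8 h7) h4

/-- **Bottleneck.**  Two flags are joined by a path of steps, all of whose vertices are within `29`
steps of every chain of elementary moves between the two flags. -/
theorem bottleneck {y x : Y} (h : ReflTransGen F.Elem y x) :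
    ReflTransGen (fun u v => F.Stp u v ∧ F.Weak y x u ∧ F.Weak y x v) y x :=
  (F.gp_path (F.gp_all h)).2

end FS

end Pool.W1
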