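import Pool.Agent.Work.MP_727c87_cx.CovTheory
import Pool.Agent.Work.MP_727c87_cx.Racg
import Pool.Agent.Work.MP_727c87_up.Up3

/-!
# MP_727c87_gt, part (D): `Stmt_UP` (helper76)
-/

namespace Pool.CX

open Pool.CS Relation

namespace UP

theorem far_iff : ∀ i j : ZMod 12, Far i j ↔ Pool.W1.Far i j := by decide +kernel

theorem far_rig : ∀ i j : ZMod 12, Pool.W1.Far i j → i ≠ j ∧ ¬ G12.Adj i j := by decide +kernel

theorem walk_eq (g : W) (u : List (ZMod 12)) :
    Pool.W1.walk (fun w i => w * rg G12 i) g u = g * wp G12 u := by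
  induction u generalizing g with
  | nil => simp [Pool.W1.walk, wp_nil]
  | cons s u ih =>
    have : Pool.W1.walk (fun w i => w * rg G12 i) g (s :: u) =
        Pool.W1.walk (fun w i => w * rg G12 i) (g * rg G12 s) u := rfl
    rw [this, ih, wp_cons, mul_assoc]

theorem rigid_rig {u : List (ZMod 12)} (h : Pool.W1.Rigid u) : Rig G12 u :=
  List.IsChain.imp far_rig h

theorem sum_range (f : ZMod 12 → ZMod 2) (s : ZMod 12) :
    ∑ k ∈ Finset.range 12, f (s + k) = ∑ j : ZMod 12, f j := by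
  have h1 : ∑ k ∈ Finset.range 12, f (s + k) = ∑ k : ZMod 12, f (s + k) := by
    rw [Finset.sum_range]
    rfl
  rw [h1]
  exact Fintype.sum_equiv (Equiv.addLeft s) _ _ (fun _ => rfl)

variable {Mo : Model} {C : Cov Mo}

/-- the flag system of a universal covering -/
noncomputable def fs (hC : C.Univ) : Pool.W1.FS C.Y W where
  a := C.a
  r := C.r
  sd y := (C.p y).2
  nd y := (C.p y).1 ∉ Mo.D
  mu y := Mo.mu (C.p y).1
  dev y := ((hC.dev hC.ne.some).choose y).1
  nb w i := w * rg G12 i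
  aa := C.a_a
  ab := C.ab
  sd_a y := by rw [C.p_a]; rfl
  sd_r y := by rw [C.p_r]; rfl
  nd_r y := by rw [C.p_r]; rfl
  mu_r y := by rw [C.p_r]; rfl
  mu_mu y j := (Mo.good _).inv j
  mu_far y j := (far_iff _ _).1 ((Mo.good _).far j)
  r12 := C.nd
  dev_a y := by
    have h := (hC.dev hC.ne.some).choose_spec
    rw [h.2.1 y, h.2.2.2.2 y]
  dev_r y := by
    have h := (hC.dev hC.ne.some).choose_spec
    rw [h.2.2.1 y]
  inj g u v hu hv h := by
    rw [walk_eq, walk_eq] at h
    exact (rigid_rig hv).unique (rigid_rig hu).red (mul_left_cancel h)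
  coh δ h1 h2 := by
    obtain ⟨B, hB1, -, hB3⟩ := hC.side_cocycle δ h1 (by
      intro y hy
      have h3 := h2 y hy
      rw [← sum_range _ (C.p y).2] at h3
      rw [← h3]
      apply Finset.sum_congr rfl
      intro k hk
      have hk' : k < 12 := Finset.mem_range.1 hk
      rw [Pool.W1.flg, add_sub_cancel_left, ZMod.val_natCast, Nat.mod_eq_of_lt hk'])
    exact ⟨B, fun y => ⟨hB1 y, hB3 y⟩⟩
  sepc y _ i hi hi12 := by
    obtain ⟨k, hk, hk2⟩ := (Mo.good (C.p y).1).conn ((C.p y).2 + 1) i hi (by omega)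
    refine ⟨k + 1, by omega, by omega, ?_⟩
    intro l hl hli he
    have e1 : (C.p y).2 + ((k + 1 : ℕ) : ZMod 12) = (C.p y).2 + 1 + k := by push_cast; ring
    rw [e1] at he
    rw [he] at hk2
    have e2 : (C.p y).2 + (l : ZMod 12) - ((C.p y).2 + 1) = ((l - 1 : ℕ) : ZMod 12) := by
      rw [Nat.cast_sub (by omega)]
      push_cast
      ring
    rw [e2, ZMod.val_natCast, Nat.mod_eq_of_lt (by omega)] at hk2
    omega

theorem arc_iff (hC : C.Univ) (y z : C.Y) : (fs hC).Arc y z ↔ C.SameArc y z := Iff.rfl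

theorem stp_step (hC : C.Univ) {y z : C.Y} (h : (fs hC).Stp y z) : C.Step y z := Or.inr h

theorem wi_dle (hC : C.Univ) (n : ℕ) {y z : C.Y} (h : (fs hC).Wi n y z) : C.Dle n y z := by
  induction n generalizing z with
  | zero => exact h
  | succ n ih =>
    obtain ⟨u, hu, hs⟩ := h
    exact ⟨u, ih hu, stp_step hC hs⟩

theorem elem_iff (hC : C.Univ) {y z : C.Y} (h : C.Elem y z) : (fs hC).Elem y z := by
  rcases h with h | h | h
  · exact Or.inl h
  · exact Or.inr (Or.inl h)
  · refine Or.inr (Or.inr ?_)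
    rw [h]
    exact (C.r.apply_symm_apply y).symm

/-- a relational path as a sequence -/
theorem path_seq {Y : Type} {R : Y → Y → Prop} {P : Y → Prop} {y x : Y} (hy : P y)
    (h : ReflTransGen (fun u v => R u v ∧ P u ∧ P v) y x) :
    ∃ (n : ℕ) (v : ℕ → Y), v 0 = y ∧ v n = x ∧ (∀ i < n, R (v i) (v (i + 1))) ∧ ∀ i ≤ n, P (v i) := by
  induction h with
  | refl => exact ⟨0, fun _ => y, rfl, rfl, fun i hi => absurd hi (by omega), fun _ _ => hy⟩
  | @tail x z _ h ih =>
    obtain ⟨n, v, h0, hn, h1, h2⟩ := ih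
    refine ⟨n + 1, fun i => if i ≤ n then v i else z, ?_, ?_, ?_, ?_⟩
    · simp only [Nat.zero_le, if_true]; exact h0
    · simp only [Nat.not_succ_le_self, if_false]
    · intro i hi
      by_cases hin : i < n
      · simp only [hin.le, if_true, Nat.succ_le_of_lt hin]
        exact h1 i hin
      · have : i = n := by omega
        subst this
        simp only [le_refl, if_true, Nat.not_succ_le_self, if_false]
        rw [hn]
        exact h.1
    · intro i hi
      by_cases hin : i ≤ n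
      · simp only [hin, if_true]
        exact h2 i hin
      · simp only [hin, if_false]
        exact h.2.2

end UP

/-- **T_UP** -/
theorem stmt_UP : Stmt_UP := by
  refine ⟨29, ?_⟩
  intro Mo C hC y y'
  have hconn : ReflTransGen (UP.fs hC).Elem y y' := by
    have h := hC.conn y y'
    induction h with
    | refl => exact ReflTransGen.refl
    | tail _ h ih => exact ih.tail (UP.elem_iff hC h)
  have hy : (UP.fs hC).Weak y y' y :=
    ⟨y, ⟨y, Or.inl rfl, Or.inl rfl⟩, (UP.fs hC).wi_refl 12 y⟩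
  obtain ⟨n, v, h0, hn, h1, h2⟩ := UP.path_seq hy ((UP.fs hC).bottleneck hconn)
  refine ⟨n, v, h0, hn, fun i hi => UP.stp_step hC (h1 i hi), ?_⟩
  intro n' u hu0 hun hu i hi
  obtain ⟨j, hj, hw⟩ := (UP.fs hC).weak_met (h2 i hi) u n' hu0 hun
    (fun k hk => UP.elem_iff hC (hu k hk))
  exact ⟨j, hj, UP.wi_dle hC 29 ((UP.fs hC).wi_symm hw)⟩

end Pool.CX
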