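import Pool.Agent.Work.MP_727c87_w1.Core

/-!
# MP_727c87_gt, part (D): the upper bound, abstract setting (helper76)

`FS Y B`: flags of the universal cover of the surface with the defect chambers opened.  A flag `y` is a
corner of a chamber, between the side `sd y` and the side `sd y + 1`; `a` crosses the side `sd y`,
`r` goes to the next flag of the same chamber, `nd y` says that the chamber is not a defect.
-/

namespace Pool.W1

open Relation

/-- the rotation to the side `j` inside the chamber of a flag -/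
def flg {Y : Type} (r : Equiv.Perm Y) (sd : Y → Side) (y : Y) (j : Side) : Y :=
  (r ^ (j - sd y).val) y

/-- abstract flag systems -/
structure FS (Y B : Type) where
  a : Y → Y
  r : Equiv.Perm Y
  sd : Y → Side
  nd : Y → Prop
  mu : Y → Side → Side
  dev : Y → B
  nb : B → Side → B
  aa : ∀ y, a (a y) = y
  ab : ∀ y, a (r.symm (a (r y))) = r.symm (a (r (a y)))
  sd_a : ∀ y, sd (a y) = sd y
  sd_r : ∀ y, sd (r y) = sd y + 1
  nd_r : ∀ y, nd (r y) ↔ nd y
  mu_r : ∀ y, mu (r y) = mu y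
  mu_mu : ∀ y j, mu y (mu y j) = j
  mu_far : ∀ y j, Far j (mu y j)
  r12 : ∀ y, nd y → (r ^ 12) y = y
  dev_a : ∀ y, dev (a y) = nb (dev y) (sd y)
  dev_r : ∀ y, dev (r y) = dev y
  inj : ∀ (g : B) (u v : List Side), Rigid u → Rigid v → walk nb g u = walk nb g v → u = v
  coh : ∀ δ : Y → ZMod 2, (∀ y, δ (a y) = δ y) →
    (∀ y, nd y → ∑ j : Side, δ (flg r sd y j) = 0) →
    ∃ h : Y → ZMod 2, ∀ y, h (a y) = h y ∧ h (r y) = h y + δ (r y)
  sepc : ∀ y, nd y → ∀ i : ℕ, 0 < i → i < 12 → ∃ k : ℕ, 0 < k ∧ k ≤ i ∧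
    ∀ l : ℕ, 0 < l → l ≤ i → mu y (sd y + k) ≠ sd y + l

namespace FS

variable {Y B : Type} (F : FS Y B)

/-- the flag at the side `j` in the chamber of `y` -/
def fl (y : Y) (j : Side) : Y := flg F.r F.sd y j

/-- crossing the side `sd y + 1` without leaving the corner -/
def b (y : Y) : Y := F.r.symm (F.a (F.r y))

/-- the other end of the chord through `y` -/
def op (y : Y) : Y := F.fl y (F.mu y (F.sd y))

/-- one elementary piece of an arc -/
def Gen (y z : Y) : Prop := z = F.a y ∨ (F.nd y ∧ z = F.op y)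

/-- two flags lie on the same arc -/
def Arc (y z : Y) : Prop := EqvGen F.Gen y z

/-- one step forward along an arc: through the chamber, then across the side -/
def Fwd (y z : Y) : Prop := F.nd y ∧ z = F.a (F.op y)

theorem sd_pow (y : Y) (n : ℕ) : F.sd ((F.r ^ n) y) = F.sd y + n := by
  induction n with
  | zero => simp
  | succ n ih =>
    rw [pow_succ', Equiv.Perm.mul_apply, F.sd_r, ih]
    push_cast
    ring

theorem nd_pow (y : Y) (n : ℕ) : F.nd ((F.r ^ n) y) ↔ F.nd y := by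
  induction n with
  | zero => simp
  | succ n ih => rw [pow_succ', Equiv.Perm.mul_apply, F.nd_r, ih]

theorem mu_pow (y : Y) (n : ℕ) : F.mu ((F.r ^ n) y) = F.mu y := by
  induction n with
  | zero => simp
  | succ n ih => rw [pow_succ', Equiv.Perm.mul_apply, F.mu_r, ih]

theorem dev_pow (y : Y) (n : ℕ) : F.dev ((F.r ^ n) y) = F.dev y := by
  induction n with
  | zero => simp
  | succ n ih => rw [pow_succ', Equiv.Perm.mul_apply, F.dev_r, ih]

theorem sd_fl (y : Y) (j : Side) : F.sd (F.fl y j) = j := by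
  rw [fl, flg, sd_pow, ZMod.natCast_val, ZMod.cast_id]
  ring

theorem nd_fl (y : Y) (j : Side) : F.nd (F.fl y j) ↔ F.nd y := F.nd_pow y _

theorem mu_fl (y : Y) (j : Side) : F.mu (F.fl y j) = F.mu y := F.mu_pow y _

theorem dev_fl (y : Y) (j : Side) : F.dev (F.fl y j) = F.dev y := F.dev_pow y _

theorem pow_mod {y : Y} (h : F.nd y) (n : ℕ) : (F.r ^ (n % 12)) y = (F.r ^ n) y := by
  have key : ∀ q m : ℕ, (F.r ^ (m + 12 * q)) y = (F.r ^ m) y := by
    intro q m
    induction q with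
    | zero => simp
    | succ q ih =>
      have : m + 12 * (q + 1) = (m + 12 * q) + 12 := by ring
      rw [this, pow_add, Equiv.Perm.mul_apply, F.r12 y h, ih]
  conv_rhs => rw [← Nat.mod_add_div n 12]
  rw [key]

theorem pow_eq_fl {y : Y} (h : F.nd y) (n : ℕ) : (F.r ^ n) y = F.fl y (F.sd y + n) := by
  rw [fl, flg, add_sub_cancel_left, ZMod.val_natCast, F.pow_mod h]

theorem fl_sd (y : Y) : F.fl y (F.sd y) = y := by simp [fl, flg]

theorem fl_fl {y : Y} (h : F.nd y) (j k : Side) : F.fl (F.fl y j) k = F.fl y k := by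
  rw [fl, flg, F.sd_fl]
  conv_lhs => rw [fl, flg]
  rw [← Equiv.Perm.mul_apply, ← pow_add, F.pow_eq_fl h]
  congr 1
  push_cast
  rw [ZMod.natCast_val, ZMod.cast_id, ZMod.natCast_val, ZMod.cast_id]
  ring

theorem r_eq_fl {y : Y} (h : F.nd y) : F.r y = F.fl y (F.sd y + 1) := by
  have := F.pow_eq_fl h 1
  simpa using this

theorem nd_rs (y : Y) : F.nd (F.r.symm y) ↔ F.nd y := by
  rw [← F.nd_r, Equiv.apply_symm_apply]

theorem sd_rs (y : Y) : F.sd (F.r.symm y) = F.sd y - 1 := by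
  have := F.sd_r (F.r.symm y)
  rw [Equiv.apply_symm_apply] at this
  rw [this]; ring

theorem rs_eq_fl {y : Y} (h : F.nd y) : F.r.symm y = F.fl y (F.sd y - 1) := by
  have h1 : F.nd (F.r.symm y) := (F.nd_rs y).2 h
  have h2 : F.fl (F.r.symm y) (F.sd y) = y := by
    have := F.r_eq_fl h1
    rw [Equiv.apply_symm_apply, F.sd_rs, sub_add_cancel] at this
    exact this.symm
  have h3 := F.fl_fl h1 (F.sd y) (F.sd y - 1)
  rw [h2] at h3
  rw [h3, ← F.sd_rs, F.fl_sd]

theorem b_b (y : Y) : F.b (F.b y) = y := by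
  simp [b, F.aa]

theorem a_b (y : Y) : F.a (F.b y) = F.b (F.a y) := F.ab y

theorem sd_b (y : Y) : F.sd (F.b y) = F.sd y := by
  rw [b, F.sd_rs, F.sd_a, F.sd_r]; ring

/-! ### the opposite flag -/

theorem sd_op (y : Y) : F.sd (F.op y) = F.mu y (F.sd y) := F.sd_fl y _

theorem nd_op (y : Y) : F.nd (F.op y) ↔ F.nd y := F.nd_fl y _

theorem mu_op (y : Y) : F.mu (F.op y) = F.mu y := F.mu_fl y _

theorem dev_op (y : Y) : F.dev (F.op y) = F.dev y := F.dev_fl y _

theorem op_op {y : Y} (h : F.nd y) : F.op (F.op y) = y := by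
  rw [op, F.mu_op, F.sd_op, F.mu_mu, op, F.fl_fl h, F.fl_sd]

theorem op_fl {y : Y} (h : F.nd y) (j : Side) : F.op (F.fl y j) = F.fl y (F.mu y j) := by
  rw [op, F.mu_fl, F.sd_fl, F.fl_fl h]

theorem fl_op {y : Y} (h : F.nd y) (j : Side) : F.fl (F.op y) j = F.fl y j := F.fl_fl h _ _

/-! ### arcs -/

theorem arc_refl (y : Y) : F.Arc y y := EqvGen.refl _

theorem arc_symm {y z : Y} (h : F.Arc y z) : F.Arc z y := EqvGen.symm _ _ h

theorem arc_trans {x y z : Y} (h : F.Arc x y) (h' : F.Arc y z) : F.Arc x z := EqvGen.trans _ _ _ h h'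

theorem arc_a (y : Y) : F.Arc y (F.a y) := EqvGen.rel _ _ (Or.inl rfl)

theorem arc_op {y : Y} (h : F.nd y) : F.Arc y (F.op y) := EqvGen.rel _ _ (Or.inr ⟨h, rfl⟩)

theorem arc_fwd {y z : Y} (h : F.Fwd y z) : F.Arc y z := by
  obtain ⟨h1, rfl⟩ := h
  exact F.arc_trans (F.arc_op h1) (F.arc_a _)

theorem arc_reach {y z : Y} (h : ReflTransGen F.Fwd y z) : F.Arc y z := by
  induction h with
  | refl => exact F.arc_refl y
  | tail _ h ih => exact F.arc_trans ih (F.arc_fwd h)

theorem fwd_op {y : Y} (h : F.nd y) : F.Fwd (F.op y) (F.a y) :=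
  ⟨(F.nd_op y).2 h, by rw [F.op_op h]⟩

theorem fwd_mk {y : Y} (h : F.nd y) : F.Fwd y (F.a (F.op y)) := ⟨h, rfl⟩

/-- the last step of a walk which arrives across the side of `w` -/
theorem fwd_a {v w : Y} (h : F.Fwd v (F.a w)) : v = F.op w ∧ F.nd w := by
  obtain ⟨h1, h2⟩ := h
  have h3 : w = F.op v := by
    have := congrArg F.a h2
    rwa [F.aa, F.aa] at this
  subst h3
  exact ⟨(F.op_op h1).symm, (F.nd_op v).2 h1⟩

/-- flags of an arc are joined by a walk, up to `a` at both ends -/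
theorem arc_cases {z w : Y} (h : F.Arc z w) :
    ∃ z' w', (z' = z ∨ z' = F.a z) ∧ (w' = w ∨ w' = F.a w) ∧ ReflTransGen F.Fwd z' w' := by
  -- closed under one generator on the right
  have key : ∀ w v, F.Gen w v →
      (∃ z' w', (z' = z ∨ z' = F.a z) ∧ (w' = w ∨ w' = F.a w) ∧ ReflTransGen F.Fwd z' w') →
      (∃ z' w', (z' = z ∨ z' = F.a z) ∧ (w' = v ∨ w' = F.a v) ∧ ReflTransGen F.Fwd z' w') := by
    rintro w v (rfl | ⟨hnd, rfl⟩) ⟨z', w', hz, hw, hr⟩
    · exact ⟨z', w', hz, by rw [F.aa]; exact hw.symm, hr⟩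
    · rcases hw with rfl | rfl
      · exact ⟨z', F.a (F.op w'), hz, Or.inr rfl, hr.tail (F.fwd_mk hnd)⟩
      · rcases ReflTransGen.cases_tail hr with h0 | ⟨v, hv, hv2⟩
        · -- `z' = a w`, hence `a z' = w`
          refine ⟨F.a z', F.a (F.op w), ?_, Or.inr rfl, ?_⟩
          · rcases hz with rfl | rfl
            · exact Or.inr rfl
            · exact Or.inl (F.aa z)
          · have : F.a z' = w := by rw [← h0, F.aa]
            rw [this]
            exact ReflTransGen.single (F.fwd_mk hnd)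
        · obtain ⟨h1, _⟩ := F.fwd_a hv2
          subst h1
          exact ⟨z', F.op w, hz, Or.inl rfl, hv⟩
  have hsymm : ∀ w v, F.Gen w v → F.Gen v w := by
    rintro w v (rfl | ⟨hnd, rfl⟩)
    · exact Or.inl (F.aa w).symm
    · exact Or.inr ⟨(F.nd_op w).2 hnd, (F.op_op hnd).symm⟩
  have h2 : ReflTransGen F.Gen z w := by
    have : ReflTransGen F.Gen z w ∧ ReflTransGen F.Gen w z := by
      clear key
      induction h with
      | rel x y h => exact ⟨ReflTransGen.single h, ReflTransGen.single (hsymm _ _ h)⟩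
      | refl x => exact ⟨ReflTransGen.refl, ReflTransGen.refl⟩
      | symm x y _ ih => exact ⟨ih.2, ih.1⟩
      | trans x y z _ _ ih1 ih2 => exact ⟨ih1.1.trans ih2.1, ih2.2.trans ih1.2⟩
    exact this.1
  clear h
  induction h2 with
  | refl => exact ⟨z, z, Or.inl rfl, Or.inl rfl, ReflTransGen.refl⟩
  | tail _ hg ih => exact key _ _ hg ih

/-- a walk starts in the chamber of `z` if this is not a defect -/
theorem arc_start {z w : Y} (hz : F.nd z) (h : F.Arc z w) :
    ∃ z' w', (z' = z ∨ z' = F.op z) ∧ (w' = w ∨ w' = F.a w) ∧ ReflTransGen F.Fwd z' w' := by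
  obtain ⟨z', w', h1, h2, h3⟩ := F.arc_cases h
  rcases h1 with rfl | rfl
  · exact ⟨z', w', Or.inl rfl, h2, h3⟩
  · exact ⟨F.op z, w', Or.inr rfl, h2, ReflTransGen.head (F.fwd_op hz) h3⟩

/-- a walk between two chambers which are not defects -/
theorem arc_both {z w : Y} (hz : F.nd z) (hw : F.nd w) (h : F.Arc z w) :
    ∃ z' w', (z' = z ∨ z' = F.op z) ∧ (w' = w ∨ w' = F.op w) ∧ ReflTransGen F.Fwd z' w' := by
  obtain ⟨z', w', h1, h2, h3⟩ := F.arc_start hz h
  rcases h2 with rfl | rfl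
  · exact ⟨z', w', h1, Or.inl rfl, h3⟩
  · rcases ReflTransGen.cases_tail h3 with h0 | ⟨v, hv, hv2⟩
    · refine ⟨F.op z', w, ?_, Or.inl rfl, ?_⟩
      · rcases h1 with rfl | rfl
        · exact Or.inr rfl
        · exact Or.inl (F.op_op hz)
      · have h4 : F.nd z' := by
          rcases h1 with rfl | rfl
          · exact hz
          · exact (F.nd_op z).2 hz
        have h5 := F.fwd_op h4
        have h6 : F.a z' = w := by rw [← h0, F.aa]
        rw [h6] at h5
        exact ReflTransGen.single h5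
    · obtain ⟨h4, _⟩ := F.fwd_a hv2
      subst h4
      exact ⟨z', F.op w, h1, Or.inr rfl, hv⟩

/-- the word of a walk -/
theorem reach_word {z w : Y} (h : ReflTransGen F.Fwd z w) :
    ∃ u : List Side, Rigid (F.sd z :: u) ∧ F.dev w = walk F.nb (F.dev z) u ∧
      (u = [] → w = z) ∧ (∀ s u', u = s :: u' → s = F.sd (F.op z)) := by
  induction h using ReflTransGen.head_induction_on with
  | refl => exact ⟨[], by simp [Rigid], rfl, fun _ => rfl, by simp⟩
  | @head z v h1 _ ih =>
    obtain ⟨u, hu1, hu2, -, -⟩ := ih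
    obtain ⟨hnd, rfl⟩ := h1
    have hs : F.sd (F.a (F.op z)) = F.mu z (F.sd z) := by rw [F.sd_a, F.sd_op]
    refine ⟨F.sd (F.a (F.op z)) :: u, ?_, ?_, by simp, ?_⟩
    · unfold Rigid at *
      rw [List.isChain_cons_cons]
      refine ⟨?_, hu1⟩
      rw [hs]
      exact F.mu_far z _
    · rw [hu2, walk, walk, List.foldl_cons, F.dev_a, F.dev_op, F.sd_a]
    · intro s u' hsu
      rw [← (List.cons.inj hsu).1, F.sd_a]

theorem rigid_tail {s : Side} {u : List Side} (h : Rigid (s :: u)) : Rigid u := by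
  unfold Rigid at *
  exact h.tail

/-- an arc meets a chamber in one chord only -/
theorem arc_chamber {z : Y} (hz : F.nd z) {j : Side} (h : F.Arc z (F.fl z j)) :
    F.fl z j = z ∨ F.fl z j = F.op z := by
  obtain ⟨z', w', h1, h2, h3⟩ := F.arc_both hz ((F.nd_fl z j).2 hz) h
  obtain ⟨u, hu1, hu2, hu3, -⟩ := F.reach_word h3
  have hz' : F.dev z' = F.dev z := by
    rcases h1 with rfl | rfl
    · rfl
    · exact F.dev_op z
  have hw' : F.dev w' = F.dev z := by
    rcases h2 with rfl | rfl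
    · exact F.dev_fl z j
    · rw [F.dev_op, F.dev_fl]
  rw [hz', hw'] at hu2
  have hu : u = [] := F.inj (F.dev z) u [] (rigid_tail hu1) (by simp [Rigid])
    (by rw [← hu2]; rfl)
  have hwz := hu3 hu
  rcases h2 with rfl | rfl
  · rcases h1 with rfl | rfl
    · exact Or.inl hwz
    · exact Or.inr hwz
  · have h5 : F.fl z j = F.op z' := by
      rw [← hwz, F.op_op ((F.nd_fl z j).2 hz)]
    rw [h5]
    rcases h1 with rfl | rfl
    · exact Or.inr rfl
    · exact Or.inl (F.op_op hz)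

/-- two arcs which share two chambers are equal -/
theorem arc_unique {z w : Y} (hz : F.nd z) (hw : F.nd w) {i j : Side}
    (h1 : F.Arc z w) (h2 : F.Arc (F.fl z i) (F.fl w j)) (hne : ∀ k, w ≠ F.fl z k) :
    F.Arc z (F.fl z i) := by
  obtain ⟨z1, w1, hz1, hw1, hr1⟩ := F.arc_both hz hw h1
  obtain ⟨z2, w2, hz2, hw2, hr2⟩ := F.arc_both ((F.nd_fl z i).2 hz) ((F.nd_fl w j).2 hw) h2
  obtain ⟨u1, a1, b1, c1, d1⟩ := F.reach_word hr1
  obtain ⟨u2, a2, b2, -, d2⟩ := F.reach_word hr2
  have dz1 : F.dev z1 = F.dev z := by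
    rcases hz1 with rfl | rfl
    · rfl
    · exact F.dev_op z
  have dz2 : F.dev z2 = F.dev z := by
    rcases hz2 with rfl | rfl
    · exact F.dev_fl z i
    · rw [F.dev_op, F.dev_fl]
  have dw1 : F.dev w1 = F.dev w := by
    rcases hw1 with rfl | rfl
    · rfl
    · exact F.dev_op w
  have dw2 : F.dev w2 = F.dev w := by
    rcases hw2 with rfl | rfl
    · exact F.dev_fl w j
    · rw [F.dev_op, F.dev_fl]
  have hu : u1 = u2 := by
    apply F.inj (F.dev z) u1 u2 (rigid_tail a1) (rigid_tail a2)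
    rw [dz1, dw1] at b1
    rw [dz2, dw2] at b2
    rw [← b1, ← b2]
  -- the walks are not trivial
  have e1 : ∃ k, z1 = F.fl z k := by
    rcases hz1 with h | h
    · exact ⟨F.sd z, by rw [F.fl_sd, h]⟩
    · exact ⟨_, h⟩
  have e2 : ∃ k, w1 = F.fl w k := by
    rcases hw1 with h | h
    · exact ⟨F.sd w, by rw [F.fl_sd, h]⟩
    · exact ⟨_, h⟩
  cases hu1 : u1 with
  | nil =>
    exfalso
    have h3 := c1 hu1
    obtain ⟨k, hk⟩ := e1
    obtain ⟨l, hl⟩ := e2
    apply hne (F.sd w)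
    rw [hk, hl] at h3
    have h4 := congrArg (fun x => F.fl x (F.sd w)) h3
    simp only [F.fl_fl hz, F.fl_fl hw, F.fl_sd] at h4
    exact h4
  | cons s u' =>
    have h3 := d1 s u' hu1
    have h4 := d2 s u' (hu ▸ hu1)
    have e3 : ∃ k, z2 = F.fl z k := by
      rcases hz2 with h | h
      · exact ⟨i, h⟩
      · exact ⟨F.mu z i, by rw [h, F.op_fl hz]⟩
    obtain ⟨k, rfl⟩ := e1
    obtain ⟨l, rfl⟩ := e3
    rw [h4, F.op_fl hz, F.op_fl hz, F.sd_fl, F.sd_fl] at h3
    have h5 : l = k := by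
      have := congrArg (F.mu z) h3
      rwa [F.mu_mu, F.mu_mu] at this
    subst h5
    have h6 : F.Arc z (F.fl z l) := by
      rcases hz1 with h | h
      · rw [h]; exact F.arc_refl z
      · rw [h]; exact F.arc_op hz
    have h7 : F.Arc (F.fl z i) (F.fl z l) := by
      rcases hz2 with h | h
      · rw [h]; exact F.arc_refl _
      · rw [h]; exact F.arc_op ((F.nd_fl z i).2 hz)
    exact F.arc_trans h6 (F.arc_symm h7)

end FS

end Pool.W1
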