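import Pool.Agent.Work.MP_727c87_up.Up1

/-!
# MP_727c87_gt, part (D): the two sides of an arc, good chains (helper76)
-/

namespace Pool.W1

open Relation

namespace FS

variable {Y B : Type} (F : FS Y B)

/-! ### the cocycle of an arc -/

open Classical in
/-- indicator of the arc of `β` -/
noncomputable def ind (β y : Y) : ZMod 2 := if F.Arc β y then 1 else 0

theorem ind_a (β y : Y) : F.ind β (F.a y) = F.ind β y := by
  have : F.Arc β (F.a y) ↔ F.Arc β y :=
    ⟨fun h => F.arc_trans h (F.arc_symm (F.arc_a y)), fun h => F.arc_trans h (F.arc_a y)⟩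
  unfold ind
  by_cases h0 : F.Arc β (F.a y)
  · rw [if_pos h0, if_pos (this.1 h0)]
  · rw [if_neg h0, if_neg (fun h1 => h0 (this.2 h1))]

theorem ind_op (β : Y) {y : Y} (hy : F.nd y) : F.ind β (F.op y) = F.ind β y := by
  have : F.Arc β (F.op y) ↔ F.Arc β y :=
    ⟨fun h => F.arc_trans h (F.arc_symm (F.arc_op hy)), fun h => F.arc_trans h (F.arc_op hy)⟩
  unfold ind
  by_cases h0 : F.Arc β (F.op y)
  · rw [if_pos h0, if_pos (this.1 h0)]
  · rw [if_neg h0, if_neg (fun h1 => h0 (this.2 h1))]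

theorem mu_ne (y : Y) (j : Side) : F.mu y j ≠ j := by
  intro h
  have := F.mu_far y j
  rw [h] at this
  simp [Far] at this

theorem ind_sum (β : Y) {y : Y} (hy : F.nd y) : ∑ j : Side, F.ind β (F.fl y j) = 0 := by
  apply Finset.sum_involution (fun j _ => F.mu y j)
  · intro j _
    rw [← F.op_fl hy, F.ind_op β ((F.nd_fl y j).2 hy)]
    exact CharTwo.add_self_eq_zero _
  · intro j _ _
    exact F.mu_ne y j
  · intro j _
    exact Finset.mem_univ _
  · intro j _
    exact F.mu_mu y j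

theorem exists_hh (β : Y) : ∃ h : Y → ZMod 2, ∀ y, h (F.a y) = h y ∧
    h (F.r y) = h y + F.ind β (F.r y) := by
  obtain ⟨h, hh⟩ := F.coh (fun y => F.ind β y) (fun y => F.ind_a β y)
    (fun y hy => F.ind_sum β hy)
  exact ⟨h, hh⟩

/-- the two sides of the arc of `β` -/
noncomputable def hh (β : Y) : Y → ZMod 2 := (F.exists_hh β).choose

theorem hh_a (β y : Y) : F.hh β (F.a y) = F.hh β y := ((F.exists_hh β).choose_spec y).1

theorem hh_r (β y : Y) : F.hh β (F.r y) = F.hh β y + F.ind β (F.r y) :=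
  ((F.exists_hh β).choose_spec y).2

theorem hh_rs (β y : Y) : F.hh β y = F.hh β (F.r.symm y) + F.ind β y := by
  have := F.hh_r β (F.r.symm y)
  rwa [Equiv.apply_symm_apply] at this

theorem hh_b (β y : Y) : F.hh β (F.b y) = F.hh β y := by
  have h1 := F.hh_rs β (F.a (F.r y))
  rw [F.hh_a, F.hh_r, F.ind_a] at h1
  exact (add_right_cancel h1).symm

theorem ind_congr {β γ : Y} (h : F.Arc β γ) : F.ind β = F.ind γ := by
  funext y
  have : F.Arc β y ↔ F.Arc γ y :=
    ⟨fun h' => F.arc_trans (F.arc_symm h) h', fun h' => F.arc_trans h h'⟩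
  unfold ind
  by_cases h0 : F.Arc β y
  · rw [if_pos h0, if_pos (this.1 h0)]
  · rw [if_neg h0, if_neg (fun h1 => h0 (this.2 h1))]

theorem hh_congr {β γ : Y} (h : F.Arc β γ) : F.hh β = F.hh γ := by
  have key : ∀ (δ δ' : Y → ZMod 2), δ = δ' →
      ∀ (e : ∃ h : Y → ZMod 2, ∀ y, h (F.a y) = h y ∧ h (F.r y) = h y + δ (F.r y))
        (e' : ∃ h : Y → ZMod 2, ∀ y, h (F.a y) = h y ∧ h (F.r y) = h y + δ' (F.r y)),
        e.choose = e'.choose := by
    intro δ δ' hδ e e'
    subst hδ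
    rfl
  exact key _ _ (F.ind_congr h) (F.exists_hh β) (F.exists_hh γ)

theorem ind_of {β y : Y} (h : F.Arc β y) : F.ind β y = 1 := if_pos h

theorem arc_of_ind {β y : Y} (h : F.ind β y ≠ 0) : F.Arc β y := by
  by_contra h'
  exact h (if_neg h')

/-- flags of one chamber on different sides of an arc: the arc passes through the chamber -/
theorem pass {γ y : Y} (hy : F.nd y) {j : Side} (h : F.hh γ y ≠ F.hh γ (F.fl y j)) :
    ∃ k, F.Arc γ (F.fl y k) := by
  by_contra hno
  push Not at hno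
  apply h
  have : ∀ n : ℕ, F.hh γ ((F.r ^ n) y) = F.hh γ y := by
    intro n
    induction n with
    | zero => simp
    | succ n ih =>
      have e : (F.r ^ (n + 1)) y = F.r ((F.r ^ n) y) := by rw [pow_succ', Equiv.Perm.mul_apply]
      rw [e, F.hh_r, ih, ← e, F.pow_eq_fl hy]
      have : F.ind γ (F.fl y (F.sd y + (n + 1 : ℕ))) = 0 := if_neg (hno _)
      rw [this, add_zero]
  rw [fl, flg, this]

/-- one of the two ends of a side of the arc is on a given side -/
theorem choose_end {β w : Y} (h : F.Arc β w) (c : ZMod 2) :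
    F.hh β w = c ∨ F.hh β (F.r.symm w) = c := by
  have h1 := F.hh_rs β w
  rw [F.ind_of h] at h1
  generalize F.hh β w = p at *
  generalize F.hh β (F.r.symm w) = q at *
  subst h1
  revert q c
  decide

theorem ne_ends {β w : Y} (h : F.Arc β w) : F.hh β w ≠ F.hh β (F.r.symm w) := by
  have h1 := F.hh_rs β w
  rw [F.ind_of h] at h1
  generalize F.hh β w = p at *
  generalize F.hh β (F.r.symm w) = q at *
  subst h1
  revert q
  decide

theorem zmod2_eq {p q s : ZMod 2} (h1 : p ≠ q) (h2 : q ≠ s) : p = s := by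
  revert p q s
  decide

/-! ### good chains -/

/-- the moves of a chain -/
def Link (x y : Y) : Prop :=
  y = F.a x ∨ y = F.b x ∨ y = F.r x ∨ x = F.r y ∨ (F.nd x ∧ ∃ j, y = F.fl x j)

/-- chains which cross every arc at most once -/
inductive GP (y : Y) : Y → Prop
  | refl : GP y y
  | step (x x' : Y) : GP y x → F.Link x x' →
      (∀ γ, F.hh γ y ≠ F.hh γ x → F.hh γ x = F.hh γ x') → GP y x'

theorem gp_a {y x : Y} (h : F.GP y x) : F.GP y (F.a x) :=
  GP.step x _ h (Or.inl rfl) (fun γ _ => (F.hh_a γ x).symm)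

theorem gp_b {y x : Y} (h : F.GP y x) : F.GP y (F.b x) :=
  GP.step x _ h (Or.inr (Or.inl rfl)) (fun γ _ => (F.hh_b γ x).symm)

theorem gp_concat {y z x : Y} (h : F.GP y z) (h2 : F.GP z x)
    (hd : ∀ γ, F.hh γ y ≠ F.hh γ z → F.hh γ z = F.hh γ x) : F.GP y x := by
  induction h2 with
  | refl => exact h
  | step x x' _ hl hs ih =>
    have hd' : ∀ γ, F.hh γ y ≠ F.hh γ z → F.hh γ z = F.hh γ x := by
      intro γ hγ
      by_contra hne
      exact hne ((hd γ hγ).trans (hs γ hne).symm)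
    refine GP.step x x' (ih hd') hl ?_
    intro γ hγ
    by_cases hyz : F.hh γ y = F.hh γ z
    · exact hs γ (by rw [← hyz]; exact hγ)
    · rw [← hd' γ hyz, hd γ hyz]

/-- following an arc, away from the first chamber -/
theorem follow {z z1 w : Y} (hz : F.nd z1) (hzz : ∃ i, z = F.fl z1 i)
    (hr : TransGen F.Fwd z1 w) :
    ∀ x', (x' = w ∨ x' = F.r.symm w) → F.hh z1 x' = F.hh z1 z →
      F.GP z x' ∧ ∀ γ, F.hh γ z ≠ F.hh γ x' →
        ∃ v, F.nd v ∧ ReflTransGen F.Fwd z1 v ∧ TransGen F.Fwd v w ∧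
          ∃ k, F.Arc γ (F.fl v k) := by
  -- one step through the chamber of `v`
  have one : ∀ v x : Y, F.nd v → F.Arc z1 v → (∃ i, x = F.fl v i) → F.hh z1 x = F.hh z1 z →
      ∀ x', (x' = F.a (F.op v) ∨ x' = F.r.symm (F.a (F.op v))) → F.hh z1 x' = F.hh z1 z →
      ∃ x2, F.Link x x2 ∧ (x' = F.a x2 ∨ x' = F.b x2) ∧ (∃ j, x2 = F.fl x j) := by
    intro v x hv harc hxi hx x' hx' hs
    obtain ⟨i, rfl⟩ := hxi
    have hnx : F.nd (F.fl v i) := (F.nd_fl v i).2 hv
    rcases hx' with rfl | rfl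
    · refine ⟨F.op v, Or.inr (Or.inr (Or.inr (Or.inr ⟨hnx, F.mu v (F.sd v), ?_⟩))), Or.inl rfl,
        F.mu v (F.sd v), ?_⟩
      · rw [F.fl_fl hv]; rfl
      · rw [F.fl_fl hv]; rfl
    · have e : F.r.symm (F.a (F.op v)) = F.b (F.r.symm (F.op v)) := by
        rw [b, Equiv.apply_symm_apply]
      have e2 : F.r.symm (F.op v) = F.fl (F.fl v i) (F.sd (F.op v) - 1) := by
        rw [F.rs_eq_fl ((F.nd_op v).2 hv), F.fl_fl hv, F.fl_op hv]
      refine ⟨F.r.symm (F.op v), Or.inr (Or.inr (Or.inr (Or.inr ⟨hnx, _, e2⟩))), Or.inr e, _, e2⟩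
  induction hr with
  | single h =>
    rename_i w
    obtain ⟨-, rfl⟩ := h
    intro x' hx' hs
    obtain ⟨x2, hl, hx2, hj⟩ := one z1 z hz (F.arc_refl _) hzz rfl x' hx' hs
    have heq : ∀ γ, F.hh γ x2 = F.hh γ x' := by
      intro γ
      rcases hx2 with rfl | rfl
      · exact (F.hh_a γ x2).symm
      · exact (F.hh_b γ x2).symm
    have hg : F.GP z x2 := GP.step z x2 GP.refl hl (fun γ h => absurd rfl h)
    constructor
    · rcases hx2 with rfl | rfl
      · exact F.gp_a hg
      · exact F.gp_b hg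
    · intro γ hγ
      rw [← heq] at hγ
      refine ⟨z1, hz, ReflTransGen.refl, TransGen.single (F.fwd_mk hz), ?_⟩
      obtain ⟨i, rfl⟩ := hzz
      obtain ⟨j, rfl⟩ := hj
      obtain ⟨k, hk⟩ := F.pass ((F.nd_fl z1 i).2 hz) hγ
      exact ⟨k, by rwa [F.fl_fl hz] at hk⟩
  | tail hr0 h ih =>
    rename_i v w
    obtain ⟨hv, rfl⟩ := h
    intro x' hx' hs
    have harc : F.Arc z1 v := F.arc_reach hr0.to_reflTransGen
    -- the end of the side `v` on our side
    obtain ⟨x, hxv, hxs⟩ : ∃ x, (x = v ∨ x = F.r.symm v) ∧ F.hh z1 x = F.hh z1 z := by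
      rcases F.choose_end harc (F.hh z1 z) with h | h
      · exact ⟨v, Or.inl rfl, h⟩
      · exact ⟨_, Or.inr rfl, h⟩
    obtain ⟨hgx, hpx⟩ := ih x hxv hxs
    have hxi : ∃ i, x = F.fl v i := by
      rcases hxv with rfl | rfl
      · exact ⟨F.sd x, (F.fl_sd x).symm⟩
      · exact ⟨_, F.rs_eq_fl hv⟩
    obtain ⟨x2, hl, hx2, hj⟩ := one v x hv harc hxi hxs x' hx' hs
    have heq : ∀ γ, F.hh γ x2 = F.hh γ x' := by
      intro γ
      rcases hx2 with rfl | rfl
      · exact (F.hh_a γ x2).symm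
      · exact (F.hh_b γ x2).symm
    have hpass : ∀ γ, F.hh γ x ≠ F.hh γ x2 → ∃ k, F.Arc γ (F.fl v k) := by
      intro γ hγ
      obtain ⟨i, rfl⟩ := hxi
      obtain ⟨j, rfl⟩ := hj
      obtain ⟨k, hk⟩ := F.pass ((F.nd_fl v i).2 hv) hγ
      exact ⟨k, by rwa [F.fl_fl hv] at hk⟩
    have hg : F.GP z x2 := by
      refine GP.step x x2 hgx hl ?_
      intro γ hγ
      by_contra hne
      obtain ⟨u, hu, hu1, hu2, k, hk⟩ := hpx γ hγ
      obtain ⟨l, hl⟩ := hpass γ hne
      -- `γ` and the arc of `z1` share the chambers of `u` and `v`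
      have hau : F.Arc z1 u := F.arc_reach hu1
      have huv : F.Arc u v := F.arc_reach hu2.to_reflTransGen
      have hdist : ∀ m, v ≠ F.fl u m := by
        intro m hm
        -- the walk from `u` to `v` has a nonempty word
        obtain ⟨W, a1, b1, c1, -⟩ := F.reach_word hu2.to_reflTransGen
        have hd : F.dev v = F.dev u := by rw [hm, F.dev_fl]
        have hW : W = [] := F.inj (F.dev u) W [] (rigid_tail a1) (by simp [Rigid])
          (by rw [← b1, hd]; rfl)
        -- a closed walk has an empty word, so no step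
        obtain ⟨t, ht1, ht2⟩ := TransGen.head'_iff.1 hu2
        obtain ⟨hnu, rfl⟩ := ht1
        obtain ⟨W2, a2, b2, -, -⟩ := F.reach_word ht2
        have hW2 : F.sd (F.a (F.op u)) :: W2 = [] := by
          apply F.inj (F.dev u) (F.sd (F.a (F.op u)) :: W2) [] a2 (by simp [Rigid])
          have e1 : walk F.nb (F.dev u) (F.sd (F.a (F.op u)) :: W2) = F.dev v := by
            rw [b2, walk, walk, List.foldl_cons, F.dev_a, F.dev_op, F.sd_a]
          rw [e1, hd]
          rfl
        exact absurd hW2 (by simp)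
      have h3 : F.Arc u (F.fl u k) :=
        F.arc_unique hu hv huv (F.arc_trans (F.arc_symm hk) hl) hdist
      have h4 : F.Arc γ z1 := F.arc_trans hk (F.arc_trans (F.arc_symm h3) (F.arc_symm hau))
      -- but `γ` separates `x` and `x2`, which are on the same side of the arc of `z1`
      rw [F.hh_congr h4] at hne
      exact hne (by rw [hxs, heq, hs])
    constructor
    · rcases hx2 with rfl | rfl
      · exact F.gp_a hg
      · exact F.gp_b hg
    · intro γ hγ
      by_cases hγx : F.hh γ z = F.hh γ x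
      · have : F.hh γ x ≠ F.hh γ x2 := by rw [heq, ← hγx]; exact hγ
        obtain ⟨k, hk⟩ := hpass γ this
        exact ⟨v, hv, hr0.to_reflTransGen, TransGen.single (F.fwd_mk hv), k, hk⟩
      · obtain ⟨u, hu, hu1, hu2, k, hk⟩ := hpx γ hγx
        exact ⟨u, hu, hu1, hu2.tail (F.fwd_mk hv), k, hk⟩

end FS

end Pool.W1
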